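import Pool.Agent.J4H81.DK.Stm

/-!
# Project DK (helper81), piece RCA: the choice of the class for the forms `a_j n + b_j`
-/

set_option autoImplicit false
set_option maxHeartbeats 400000

namespace Pool.Agent.J4H28.DK

open Finset
open Pool.Agent.J4H81.GB Pool.Agent.J4H32.MV Pool.Agent.J4H81.DK

theorem ker_card (W : ℕ) [NeZero W] (a : ℤ) (ha : a ≠ 0) (R : ℕ) (haR : |a| ≤ R) :
    (univ.filter (fun y : ZMod W => (a : ZMod W) * y = 0)).card ≤ R := by
  have h1 := IsAddCyclic.card_nsmul_eq_zero_le (α := ZMod W) (n := a.natAbs) (Int.natAbs_pos.2 ha)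
  have h2 : (a.natAbs : ℤ) ≤ R := by rwa [Int.natCast_natAbs]
  refine le_trans (le_trans (card_le_card ?_) h1) (by exact_mod_cast h2)
  intro y hy
  rw [mem_filter] at hy ⊢
  refine ⟨mem_univ _, ?_⟩
  rw [nsmul_eq_mul, ← Int.cast_natCast (R := ZMod W) a.natAbs, Int.natCast_natAbs]
  rcases abs_choice a with h | h <;> rw [h]
  · exact hy.2
  · rw [Int.cast_neg, neg_mul, hy.2, neg_zero]

theorem fib_card (W : ℕ) [NeZero W] (a : ℤ) (ha : a ≠ 0) (R : ℕ) (haR : |a| ≤ R) (s β : ZMod W) :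
    (univ.filter (fun y : ZMod W => (a : ZMod W) * y + s = β)).card ≤ R := by
  rcases (univ.filter (fun y : ZMod W => (a : ZMod W) * y + s = β)).eq_empty_or_nonempty with h | ⟨y₀, h⟩
  · rw [h]; simp
  · refine le_trans (card_le_card_of_injOn (fun y => y - y₀) ?_ (fun y _ z _ h => sub_left_injective h)) (ker_card W a ha R haR)
    intro y hy
    rw [mem_coe, mem_filter] at hy
    rw [mem_filter] at h
    rw [mem_coe, mem_filter]
    refine ⟨mem_univ _, ?_⟩
    rw [mul_sub]
    linear_combination hy.2 - h.2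

theorem bad_card (W : ℕ) [NeZero W] (a : ℤ) (ha : a ≠ 0) (R : ℕ) (haR : |a| ≤ R) (s : ZMod W) (B : Finset (ZMod W)) :
    (univ.filter (fun y : ZMod W => (a : ZMod W) * y + s ∈ B)).card ≤ B.card * R := by
  classical
  have : univ.filter (fun y : ZMod W => (a : ZMod W) * y + s ∈ B) ⊆
      B.biUnion (fun β => univ.filter (fun y : ZMod W => (a : ZMod W) * y + s = β)) := by
    intro y hy
    rw [mem_filter] at hy
    rw [mem_biUnion]
    exact ⟨_, hy.2, mem_filter.2 ⟨mem_univ _, rfl⟩⟩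
  exact le_trans (card_le_card this) (card_biUnion_le_card_mul _ _ _ fun β _ => fib_card W a ha R haR s β)

theorem t_RCA : S_RCA := by
  classical
  intro hRC k R w a b₀ B ha haR hkw hw hB ρ
  have hWpos : 0 < primorial w := primorial_pos w
  have : NeZero (primorial w) := ⟨hWpos.ne'⟩
  by_cases hex : ∃ x₁ : Fin k → ℕ, AdA a b₀ x₁ ∧ (fun i => x₁ i % primorial w) = ρ
  swap
  · exact ⟨0, hWpos, fun x hx hρ => absurd ⟨x, hx, hρ⟩ hex⟩
  obtain ⟨x₁, hAd, hρ⟩ := hex
  -- the residues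
  have hr : ∀ p : ℕ, ∃ r : ℕ, p.Prime → ∀ j, ¬ (p : ℤ) ∣ a j * r + bs b₀ x₁ j := by
    intro p
    by_cases hp : p.Prime
    · obtain ⟨r, h⟩ := hAd p hp
      exact ⟨r, fun _ => h⟩
    · exact ⟨0, fun h => absurd h hp⟩
  choose r hr using hr
  set res : Fin (k + 1) → ℕ → ℕ := fun j p => (if (a j : ZMod p) ≠ 0 then (bs b₀ x₁ j : ZMod p) * (a j : ZMod p)⁻¹ else 1 - (r p : ZMod p)).val with hres
  have hc : ∀ j, ∃ c : ℕ, ∀ p : ℕ, p.Prime → p ≤ w → (c : ZMod p) = (res j p : ZMod p) := by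
    intro j
    obtain ⟨c, hc⟩ := Nat.chineseRemainderOfFinset (res j) (fun p => p) ((range (w + 1)).filter Nat.Prime)
      (fun p hp => (mem_filter.1 hp).2.ne_zero)
      (fun p hp q hq hpq => (Nat.coprime_primes (mem_filter.1 hp).2 (mem_filter.1 hq).2).2 hpq)
    exact ⟨c, fun p hp hpw => (ZMod.natCast_eq_natCast_iff _ _ _).2 (hc p (mem_filter.2 ⟨mem_range.2 (by omega), hp⟩))⟩
  choose c hc using hc
  have hcp : ∀ j, ∀ p : ℕ, p.Prime → p ≤ w → (a j : ZMod p) ≠ 0 → (a j : ZMod p) * (c j : ZMod p) = (bs b₀ x₁ j : ZMod p) := by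
    intro j p hp hpw h
    have := Fact.mk hp
    rw [hc j p hp hpw, hres]
    simp only [if_pos h]
    rw [ZMod.natCast_zmod_val]
    field_simp
  have hcq : ∀ j, ∀ p : ℕ, p.Prime → p ≤ w → (a j : ZMod p) = 0 → (c j : ZMod p) = 1 - (r p : ZMod p) := by
    intro j p hp hpw h
    have := Fact.mk hp
    rw [hc j p hp hpw, hres]
    simp only [h, ne_eq, not_true_eq_false, if_false]
    rw [ZMod.natCast_zmod_val]
  have hdv : ∀ (p : ℕ) (z : ℤ), (p : ℤ) ∣ z ↔ (z : ZMod p) = 0 := fun p z => (ZMod.intCast_zmod_eq_zero_iff_dvd z p).symm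
  have hadm : ∀ p : ℕ, p.Prime → ∃ r : ℕ, ∀ j, ¬ p ∣ r + c j := by
    intro p hp
    have := Fact.mk hp
    by_cases hpw : p ≤ w
    · refine ⟨r p, fun j hd => ?_⟩
      have h1 : ((r p + c j : ℕ) : ZMod p) = 0 := (ZMod.natCast_eq_zero_iff _ _).2 hd
      push_cast at h1
      by_cases h : (a j : ZMod p) = 0
      · rw [hcq j p hp hpw h] at h1
        simp at h1
      · apply hr p hp j
        rw [hdv]
        push_cast
        rw [← hcp j p hp hpw h, ← mul_add, h1, mul_zero]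
    · have hcard : (Finset.univ.image (fun j : Fin (k + 1) => -((c j : ℕ) : ZMod p))).card < Fintype.card (ZMod p) := by
        rw [ZMod.card]
        refine (Finset.card_image_le).trans_lt ?_
        rw [Finset.card_univ, Fintype.card_fin]
        omega
      obtain ⟨r, hr⟩ : ∃ r : ZMod p, r ∉ Finset.univ.image (fun j : Fin (k + 1) => -((c j : ℕ) : ZMod p)) := by
        by_contra hcon
        push Not at hcon
        have : Finset.univ.image (fun j : Fin (k + 1) => -((c j : ℕ) : ZMod p)) = Finset.univ :=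
          Finset.eq_univ_iff_forall.2 hcon
        rw [this, Finset.card_univ] at hcard
        exact lt_irrefl _ hcard
      refine ⟨r.val, fun j hd => hr ?_⟩
      rw [Finset.mem_image]
      refine ⟨j, Finset.mem_univ j, ?_⟩
      have h1 : ((r.val + c j : ℕ) : ZMod p) = 0 := (ZMod.natCast_eq_zero_iff _ _).2 hd
      rw [Nat.cast_add, ZMod.natCast_zmod_val] at h1
      exact (eq_neg_of_add_eq_zero_left h1).symm
  set Bad : Finset (ZMod (primorial w)) := univ.biUnion (fun j : Fin (k + 1) =>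
    univ.filter (fun y : ZMod (primorial w) => (a j : ZMod (primorial w)) * y + (bs b₀ x₁ j : ZMod (primorial w)) ∈ B)) with hBad
  have hBadc : Bad.card ≤ (k + 1) * (B.card * R) := by
    have := card_biUnion_le_card_mul (univ : Finset (Fin (k + 1))) (fun j : Fin (k + 1) =>
      univ.filter (fun y : ZMod (primorial w) => (a j : ZMod (primorial w)) * y + (bs b₀ x₁ j : ZMod (primorial w)) ∈ B)) (B.card * R)
      (fun j _ => bad_card _ (a j) (ha j) R (haR j) _ B)
    rwa [Finset.card_univ, Fintype.card_fin] at this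
  have hB' : ((k + 1 : ℕ) : ℝ) * (Bad.image (fun y => y + (c 0 : ZMod (primorial w)))).card *
      ((2 * ((k + 1 : ℕ) : ℝ)) ^ (2 * (k + 1)) * (w : ℝ) ^ (2 * (k + 1))) < primorial w := by
    refine lt_of_le_of_lt ?_ hB
    have h3 : (0 : ℝ) ≤ (2 * ((k + 1 : ℕ) : ℝ)) ^ (2 * (k + 1)) * (w : ℝ) ^ (2 * (k + 1)) := by positivity
    refine mul_le_mul_of_nonneg_right ?_ h3
    have h4 : ((Bad.image (fun y => y + (c 0 : ZMod (primorial w)))).card : ℝ) ≤ (k + 1 : ℕ) * (B.card * R) := by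
      exact_mod_cast le_trans card_image_le hBadc
    have h5 : (0 : ℝ) ≤ ((k + 1 : ℕ) : ℝ) := Nat.cast_nonneg _
    calc ((k + 1 : ℕ) : ℝ) * (Bad.image (fun y => y + (c 0 : ZMod (primorial w)))).card ≤
        ((k + 1 : ℕ) : ℝ) * ((k + 1 : ℕ) * (B.card * R)) := mul_le_mul_of_nonneg_left h4 h5
      _ = _ := by ring
  obtain ⟨b, hb, hbj⟩ := hRC (k + 1) w c (by omega) (by omega) hadm _ hB'
  refine ⟨b, hb, fun x _ hx j => ?_⟩
  have hcast : (bs b₀ x j : ZMod (primorial w)) = (bs b₀ x₁ j : ZMod (primorial w)) := by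
    refine Fin.cases rfl (fun i => ?_) j
    have h1 : x i % primorial w = x₁ i % primorial w := congrFun (hx.trans hρ.symm) i
    exact (ZMod.natCast_eq_natCast_iff _ _ _).2 h1
  rw [hcast]
  constructor
  · have h1 : (a j : ZMod (primorial w)) * (b : ZMod (primorial w)) + (bs b₀ x₁ j : ZMod (primorial w)) =
        ((a j * b + bs b₀ x₁ j : ℤ) : ZMod (primorial w)) := by push_cast; rfl
    rw [h1, ZMod.coe_int_isUnit_iff_isCoprime]
    rw [Int.isCoprime_iff_gcd_eq_one, Int.gcd_eq_natAbs, Int.natAbs_natCast]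
    by_contra hne
    obtain ⟨p, hp, hpd⟩ := Nat.exists_prime_and_dvd hne
    have := Fact.mk hp
    have hpW : p ∣ primorial w := hpd.trans (Nat.gcd_dvd_left _ _)
    have hpa : (p : ℤ) ∣ a j * b + bs b₀ x₁ j := Int.natCast_dvd.2 (hpd.trans (Nat.gcd_dvd_right _ _))
    have hpw : p ≤ w := hp.dvd_primorial_iff.1 hpW
    rw [hdv] at hpa
    push_cast at hpa
    by_cases h : (a j : ZMod p) = 0
    · apply hr p hp j
      rw [hdv]
      push_cast
      rw [h] at hpa ⊢
      simpa using hpa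
    · rw [← hcp j p hp hpw h, ← mul_add] at hpa
      have h2 := (mul_eq_zero.1 hpa).resolve_left h
      have h3 : p ∣ b + c j := (ZMod.natCast_eq_zero_iff _ _).1 (by push_cast; exact h2)
      have h4 := Nat.dvd_gcd h3 hpW
      rw [(hbj j).1] at h4
      exact hp.one_lt.ne' (Nat.dvd_one.1 h4)
  · intro hmem
    apply (hbj 0).2
    push_cast
    refine mem_image_of_mem (fun y => y + (c 0 : ZMod (primorial w))) ?_
    rw [hBad, mem_biUnion]
    exact ⟨j, mem_univ _, mem_filter.2 ⟨mem_univ _, hmem⟩⟩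

end Pool.Agent.J4H28.DK
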